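import Pool.Agent.Helper7.AFT.Base

/-!
The matrices of the vectors of `H_1(Y)` for an exterior square `Y`.
-/

namespace Pool.Agent.Helper7.AFT

open Module Pool.Agent.GPC Pool.Agent.Helper7 Pool.Agent.Helper39.AF

section T5

/-- the step `F^0` as a subspace -/
private def FilS (Y : AbVar) : Submodule ℂ Y.H1 where
  carrier := {v | Y.IsFil v}
  zero_mem' := fun _ => rfl
  add_mem' := by
    intro a b ha hb i
    show a (.inl i) + b (.inl i) = 0
    rw [ha i, hb i, add_zero]
  smul_mem' := by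
    intro c a ha i
    show c * a (.inl i) = 0
    rw [ha i, mul_zero]

private lemma finrank_FilS (Y : AbVar) : finrank ℂ (FilS Y) = Y.g := by
  have h1 := LinearMap.finrank_range_add_finrank_ker
    (LinearMap.funLeft ℂ ℂ (Sum.inl : Fin Y.g → Fin Y.g ⊕ Fin Y.g))
  have h2 : LinearMap.range (LinearMap.funLeft ℂ ℂ (Sum.inl : Fin Y.g → Fin Y.g ⊕ Fin Y.g)) = ⊤ :=
    LinearMap.range_eq_top.mpr (LinearMap.funLeft_surjective_of_injective _ _ _ Sum.inl_injective)
  have h3 : LinearMap.ker (LinearMap.funLeft ℂ ℂ (Sum.inl : Fin Y.g → Fin Y.g ⊕ Fin Y.g)) =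
      FilS Y := by
    ext v
    rw [LinearMap.mem_ker]
    exact ⟨fun h a => congrFun h a, fun h => funext h⟩
  rw [h2, h3, finrank_top, finrank_pi, finrank_pi, Fintype.card_sum, Fintype.card_fin] at h1
  have h5 : Y.g + finrank ℂ (FilS Y) = Y.g + Y.g := h1
  omega

private lemma finrank_H1' (X : AbVar) : finrank ℂ X.H1 = 2 * X.g := by
  rw [Module.finrank_fintype_fun_eq_card]
  simp [two_mul]

variable {X Y E : AbVar} {d : ℚ} {J : X.H1 → X.H1} {JY : Y.H1 → Y.H1} {JE : E.H1 → E.H1}
  {T : Ten X Y E} (hJ : X.IsWeilStructure d J) (hT : X.IsExtSquareL d J Y E JY JE T) {z : ℂ}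
  (hz : z ^ 2 = -(d : ℂ)) (F : Frame X J z) (G : FrameE E JE z)

include hJ hz in
private lemma z_ne : z ≠ 0 := by
  intro h
  rw [h] at hz
  have h1 : (d : ℂ) = 0 := by
    have : (0 : ℂ) ^ 2 = 0 := by norm_num
    rw [this] at hz
    exact neg_eq_zero.mp hz.symm
  have h2 : d = 0 := by exact_mod_cast h1
  exact absurd h2 hJ.1.ne'

/-- the eigenvalue -/
private def ev (z : ℂ) (ε : Bool) : ℂ := if ε then -z else z

private lemma F_J (p : Fin 4 × Bool) : J (F.b p) = ev z p.2 • F.b p := by
  obtain ⟨i, ε⟩ := p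
  cases ε
  · simpa [ev] using F.Jf i
  · simpa [ev] using F.Jt i

private lemma G_J (ε : Bool) : JE (G.g ε) = ev z ε • G.g ε := by
  cases ε
  · simpa [ev] using G.Jf
  · simpa [ev] using G.Jt

include hJ hz in
private lemma ev_inj {ε ε' : Bool} (h : ev z ε = ev z ε') : ε = ε' := by
  have h0 := z_ne hJ hz
  have key : z ≠ -z := by
    intro h1
    apply h0
    have h2 : z + z = 0 := by
      nth_rewrite 2 [h1]
      ring
    have h3 : 2 * z = 0 := by linear_combination h2
    exact (mul_eq_zero.mp h3).resolve_left two_ne_zero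
  cases ε <;> cases ε'
  · rfl
  · exact absurd (by simpa [ev] using h) key
  · exact absurd (by simpa [ev] using h.symm) key
  · rfl

include hJ hT hz in
private lemma T_mixed (p q : Fin 4 × Bool) (w : Y.H1) (ε : Bool) (h : p.2 ≠ ε ∨ q.2 ≠ ε) :
    T (F.b p) (F.b q) w (G.g ε) = 0 := by
  have h1 := (hT.lin (F.b p) (F.b q) w (G.g ε)).1
  have h2 := (hT.lin (F.b p) (F.b q) w (G.g ε)).2.2
  rw [F_J F p, F_J F q] at h1
  rw [F_J F p, G_J G ε] at h2
  simp only [map_smul, LinearMap.smul_apply, smul_eq_mul] at h1 h2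
  by_contra h3
  have h4 : ev z p.2 = ev z q.2 := mul_right_cancel₀ h3 h1
  have h5 : ev z p.2 = ev z ε := mul_right_cancel₀ h3 h2
  rcases h with h | h
  · exact h (ev_inj hJ hz h5)
  · exact h (ev_inj hJ hz (h4.symm.trans h5))

include hJ hT hz in
theorem T_eq (u v : X.H1) (w : Y.H1) (l : E.H1) : T u v w l =
    ∑ ε : Bool, ∑ i, ∑ j, F.b.repr u (i, ε) * F.b.repr v (j, ε) * G.g.repr l ε *
      mat T F G ε w i j := by
  have e1 : T u v w l = ∑ p, ∑ q, ∑ ε, F.b.repr u p * F.b.repr v q * G.g.repr l ε *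
      T (F.b p) (F.b q) w (G.g ε) := by
    have s1 : T u v w l = ∑ p, F.b.repr u p * T (F.b p) v w l := by
      conv_lhs => rw [← F.b.sum_repr u]
      simp only [map_sum, map_smul, LinearMap.sum_apply, LinearMap.smul_apply, smul_eq_mul]
    have s2 : ∀ p, T (F.b p) v w l = ∑ q, F.b.repr v q * T (F.b p) (F.b q) w l := by
      intro p
      conv_lhs => rw [← F.b.sum_repr v]
      simp only [map_sum, map_smul, LinearMap.sum_apply, LinearMap.smul_apply, smul_eq_mul]
    have s3 : ∀ p q, T (F.b p) (F.b q) w l = ∑ ε, G.g.repr l ε * T (F.b p) (F.b q) w (G.g ε) := by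
      intro p q
      conv_lhs => rw [← G.g.sum_repr l]
      simp only [map_sum, map_smul, smul_eq_mul]
    rw [s1]
    refine Finset.sum_congr rfl fun p _ => ?_
    rw [s2, Finset.mul_sum]
    refine Finset.sum_congr rfl fun q _ => ?_
    rw [s3, Finset.mul_sum, Finset.mul_sum]
    refine Finset.sum_congr rfl fun ε _ => ?_
    ring
  rw [e1]
  have e2 : ∀ p q, (∑ ε, F.b.repr u p * F.b.repr v q * G.g.repr l ε *
      T (F.b p) (F.b q) w (G.g ε)) = if p.2 = q.2 then F.b.repr u p * F.b.repr v q *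
        G.g.repr l p.2 * T (F.b p) (F.b q) w (G.g p.2) else 0 := by
    intro p q
    split_ifs with h
    · refine Finset.sum_eq_single p.2 (fun ε _ hε => ?_) (fun h => absurd (Finset.mem_univ _) h)
      rw [T_mixed hJ hT hz F G p q w ε (Or.inl (Ne.symm hε)), mul_zero]
    · refine Finset.sum_eq_zero fun ε _ => ?_
      by_cases h1 : p.2 = ε
      · rw [T_mixed hJ hT hz F G p q w ε (Or.inr fun h2 => h (h1.trans h2.symm)), mul_zero]
      · rw [T_mixed hJ hT hz F G p q w ε (Or.inl h1), mul_zero]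
  simp only [e2]
  rw [Fintype.sum_prod_type, Finset.sum_comm]
  refine Finset.sum_congr rfl fun ε _ => ?_
  refine Finset.sum_congr rfl fun i _ => ?_
  rw [Fintype.sum_prod_type]
  refine Finset.sum_congr rfl fun j _ => ?_
  rw [Finset.sum_eq_single ε]
  · rw [if_pos rfl]
    rfl
  · intro ε' _ h
    rw [if_neg (Ne.symm h)]
  · intro h
    exact absurd (Finset.mem_univ _) h

include hT in
private lemma T_alt (u v : X.H1) (w : Y.H1) (l : E.H1) : T u v w l = - T v u w l := by
  have h1 := hT.alt (u + v) w l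
  simp only [map_add, LinearMap.add_apply] at h1
  rw [hT.alt u w l, hT.alt v w l] at h1
  linear_combination h1

include hT in
private lemma mat_alt' (ε : Bool) (w : Y.H1) (i j : Fin 4) :
    mat T F G ε w i j = - mat T F G ε w j i := T_alt hT _ _ _ _

include hJ hT hz in
theorem mat_alt (ε : Bool) (w : Y.H1) (i j : Fin 4) : mat T F G ε w i j = - mat T F G ε w j i := by
  have _ := hJ
  have _ := hz
  exact mat_alt' hT F G ε w i j

/-- the six pairs -/
private def pr : Fin 6 → Fin 4 × Fin 4 := ![(0, 1), (0, 2), (0, 3), (1, 2), (1, 3), (2, 3)]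

private lemma alt_ext (M N : Fin 4 → Fin 4 → ℂ) (hM : ∀ i j, M i j = - M j i)
    (hN : ∀ i j, N i j = - N j i) (h : ∀ k, M (pr k).1 (pr k).2 = N (pr k).1 (pr k).2)
    (i j : Fin 4) : M i j = N i j := by
  have hd : ∀ (P : Fin 4 → Fin 4 → ℂ), (∀ i j, P i j = - P j i) → ∀ i, P i i = 0 := by
    intro P hP i
    have h1 := hP i i
    have h2 : 2 * P i i = 0 := by linear_combination h1
    exact (mul_eq_zero.mp h2).resolve_left two_ne_zero
  have key : ∀ i j : Fin 4, i = j ∨ (∃ k, pr k = (i, j)) ∨ (∃ k, pr k = (j, i)) := by decide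
  rcases key i j with h1 | ⟨k, h1⟩ | ⟨k, h1⟩
  · subst h1
    rw [hd M hM, hd N hN]
  · have h2 := h k
    rw [h1] at h2
    exact h2
  · have h2 := h k
    rw [h1] at h2
    rw [hM, hN, h2]

/-- the entries of the matrices as a linear map -/
private noncomputable def ent (T : Ten X Y E) (F : Frame X J z) (G : FrameE E JE z)
    (κ : Type) (s : κ → Bool × Fin 4 × Fin 4) : Y.H1 →ₗ[ℂ] (κ → ℂ) where
  toFun w := fun k => mat T F G (s k).1 w (s k).2.1 (s k).2.2
  map_add' := by
    intro a b
    funext k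
    simp [mat]
  map_smul' := by
    intro c a
    funext k
    simp [mat]

include hJ hT hz in
private lemma mat_inj (w : Y.H1) (h : ∀ ε i j, mat T F G ε w i j = 0) : w = 0 := by
  refine hT.nondeg w fun u v l => ?_
  rw [T_eq hJ hT hz F G]
  simp [h]

include hJ hT hz in
theorem mat_surj (M : Bool → Fin 4 → Fin 4 → ℂ) (hM : ∀ ε i j, M ε i j = - M ε j i) :
    ∃ w, ∀ ε i j, mat T F G ε w i j = M ε i j := by
  let L := ent T F G (Bool × Fin 6) (fun k => (k.1, pr k.2))
  have hL : ∀ w k, L w k = mat T F G k.1 w (pr k.2).1 (pr k.2).2 := fun w k => rfl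
  have hinj : Function.Injective L := by
    rw [injective_iff_map_eq_zero]
    intro w hw
    refine mat_inj hJ hT hz F G w fun ε i j => ?_
    refine alt_ext (fun i j => mat T F G ε w i j) (fun _ _ => 0) (fun i j => mat_alt' hT F G ε w i j)
      (fun _ _ => by simp) (fun k => ?_) i j
    have h1 := congrFun hw (ε, k)
    rw [hL] at h1
    exact h1
  have hfr : finrank ℂ Y.H1 = finrank ℂ (Bool × Fin 6 → ℂ) := by
    rw [finrank_H1', hT.dim.1, Module.finrank_fintype_fun_eq_card]
    simp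
  have hsurj := (LinearMap.injective_iff_surjective_of_finrank_eq_finrank hfr).mp hinj
  obtain ⟨w, hw⟩ := hsurj (fun k => M k.1 (pr k.2).1 (pr k.2).2)
  refine ⟨w, fun ε i j => ?_⟩
  refine alt_ext (fun i j => mat T F G ε w i j) (fun i j => M ε i j)
    (fun i j => mat_alt' hT F G ε w i j) (hM ε) (fun k => ?_) i j
  have h1 := congrFun hw (ε, k)
  rw [hL] at h1
  exact h1

include hJ hT hz in
theorem fil_iff (w : Y.H1) : Y.IsFil w ↔ (∀ j, mat T F G false w 0 j = 0) ∧
    (∀ i j, i ≠ 0 → j ≠ 0 → mat T F G true w i j = 0) := by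
  have forw : ∀ w, Y.IsFil w → (∀ j, mat T F G false w 0 j = 0) ∧
      (∀ i j, i ≠ 0 → j ≠ 0 → mat T F G true w i j = 0) := by
    intro w hw
    refine ⟨fun j => ?_, fun i j hi hj => ?_⟩
    · exact hT.hodge _ _ _ _ (Or.inr (Or.inr ⟨F.fil_f, hw, G.fil⟩))
    · exact hT.hodge _ _ _ _ (Or.inl ⟨F.fil_t i hi, F.fil_t j hj, hw⟩)
  refine ⟨forw w, fun hw => ?_⟩
  -- the six remaining entries
  let s : Fin 6 → Bool × Fin 4 × Fin 4 :=
    ![(false, 1, 2), (false, 1, 3), (false, 2, 3), (true, 0, 1), (true, 0, 2), (true, 0, 3)]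
  let L := (ent T F G (Fin 6) s).comp (FilS Y).subtype
  have hL : ∀ (w : FilS Y) k, L w k = mat T F G (s k).1 (w : Y.H1) (s k).2.1 (s k).2.2 :=
    fun w k => rfl
  -- a vector with the vanishing conditions and vanishing remaining entries is zero
  have key : ∀ v : Y.H1, (∀ j, mat T F G false v 0 j = 0) →
      (∀ i j, i ≠ 0 → j ≠ 0 → mat T F G true v i j = 0) →
      (∀ k, mat T F G (s k).1 v (s k).2.1 (s k).2.2 = 0) → v = 0 := by
    intro v h1 h2 h3
    refine mat_inj hJ hT hz F G v fun ε i j => ?_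
    refine alt_ext (fun i j => mat T F G ε v i j) (fun _ _ => 0) (fun i j => mat_alt' hT F G ε v i j)
      (fun _ _ => by simp) (fun k => ?_) i j
    show mat T F G ε v (pr k).1 (pr k).2 = 0
    cases ε
    · fin_cases k
      · exact h1 1
      · exact h1 2
      · exact h1 3
      · exact h3 0
      · exact h3 1
      · exact h3 2
    · fin_cases k
      · exact h3 3
      · exact h3 4
      · exact h3 5
      · exact h2 1 2 (by decide) (by decide)
      · exact h2 1 3 (by decide) (by decide)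
      · exact h2 2 3 (by decide) (by decide)
  have hinj : Function.Injective L := by
    rw [injective_iff_map_eq_zero]
    intro v hv
    have h1 := forw (v : Y.H1) v.2
    have h2 : (v : Y.H1) = 0 := key _ h1.1 h1.2 fun k => by
      have h3 := congrFun hv k
      rw [hL] at h3
      exact h3
    exact Subtype.ext h2
  have hfr : finrank ℂ (FilS Y) = finrank ℂ (Fin 6 → ℂ) := by
    rw [finrank_FilS, hT.dim.1, Module.finrank_fintype_fun_eq_card]
    simp
  have hsurj := (LinearMap.injective_iff_surjective_of_finrank_eq_finrank hfr).mp hinj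
  obtain ⟨w', hw'⟩ := hsurj (fun k => mat T F G (s k).1 w (s k).2.1 (s k).2.2)
  have hf' := forw (w' : Y.H1) w'.2
  have hsub : ∀ ε i j, mat T F G ε (w - w') i j = mat T F G ε w i j - mat T F G ε w' i j := by
    intro ε i j
    simp [mat]
  have h0 : w - w' = 0 := key _ (fun j => by rw [hsub, hw.1, hf'.1, sub_zero])
    (fun i j hi hj => by rw [hsub, hw.2 i j hi hj, hf'.2 i j hi hj, sub_zero])
    (fun k => by
      have h1 := congrFun hw' k
      rw [hL] at h1
      rw [hsub, h1, sub_self])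
  rw [sub_eq_zero.mp h0]
  exact w'.2

end T5

end Pool.Agent.Helper7.AFT
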